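import Mathlib

set_option autoImplicit false

open Quaternion

namespace Pool.Agent.Results.MP_aceab8_an.Even

/-- Outer normals (of length `√3`) of the regular tetrahedron `{x | ∀ i, nn i ⬝ᵥ x ≤ 1}`. -/
def nn : Fin 4 → Fin 3 → ℝ := ![![1, 1, 1], ![1, -1, -1], ![-1, 1, -1], ![-1, -1, 1]]

/-- A billiard trajectory: bounce points `p k` in the open face `f k`, velocities `v k` on the
segment from `p k` to `p (k+1)`, which runs through the interior, and reflection at each bounce. -/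
def Traj (p v : ℕ → Fin 3 → ℝ) (f : ℕ → Fin 4) : Prop :=
  ∀ k, nn (f k) ⬝ᵥ p k = 1 ∧ (∀ j, j ≠ f k → nn j ⬝ᵥ p k < 1) ∧ v k ⬝ᵥ v k = 1 ∧
    (∃ t > (0 : ℝ), p (k + 1) = p k + t • v k ∧
      ∀ s ∈ Set.Ioo 0 t, ∀ j, nn j ⬝ᵥ (p k + s • v k) < 1) ∧
    v (k + 1) = v k - (2 * (v k ⬝ᵥ nn (f (k + 1))) / 3) • nn (f (k + 1))

def nz : Fin 4 → ℍ[ℤ] := ![⟨0, 1, 1, 1⟩, ⟨0, 1, -1, -1⟩, ⟨0, -1, 1, -1⟩, ⟨0, -1, -1, 1⟩]

def D (q : ℍ[ℤ]) : Prop := 3 ∣ q.re ∧ 3 ∣ q.imI ∧ 3 ∣ q.imJ ∧ 3 ∣ q.imK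

def P (i : Fin 4) (q : ℍ[ℤ]) : Prop := ¬ D q ∧ D (nz i * q)

lemma step (i j : Fin 4) (h : i ≠ j) (q : ℍ[ℤ]) (hq : P j q) : P i (nz i * q) := by
  obtain ⟨a, b, c, d⟩ := q
  fin_cases i <;> fin_cases j <;> simp [P, D, nz] at h hq ⊢ <;> omega

lemma base (i : Fin 4) : P i (nz i) := by
  fin_cases i <;> simp [P, D, nz]

def ι (q : ℍ[ℤ]) : ℍ[ℝ] := ⟨q.re, q.imI, q.imJ, q.imK⟩

lemma ι_mul (p q : ℍ[ℤ]) : ι (p * q) = ι p * ι q := by
  ext <;> simp [ι]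

def V (v : Fin 3 → ℝ) : ℍ[ℝ] := ⟨0, v 0, v 1, v 2⟩

lemma refl (i : Fin 4) (v : Fin 3 → ℝ) :
    ι (nz i) * V v = -(V (v - (2 * (v ⬝ᵥ nn i) / 3) • nn i) * ι (nz i)) := by
  fin_cases i <;> ext <;> simp [ι, V, nz, nn, dotProduct, Fin.sum_univ_three] <;> ring

def Q (f : ℕ → Fin 4) : ℕ → ℍ[ℤ]
  | 0 => 1
  | k + 1 => nz (f (k + 1)) * Q f k

lemma Q_norm (f : ℕ → Fin 4) (k : ℕ) : normSq (Q f k) = 3 ^ k := by
  induction k with
  | zero => simp [Q]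
  | succ k ih =>
    have : ∀ i, normSq (nz i) = 3 := fun i => by fin_cases i <;> simp [nz, normSq_def']
    rw [Q, map_mul, ih, this, pow_succ']

theorem result (p v : ℕ → Fin 3 → ℝ) (f : ℕ → Fin 4) (h : Traj p v f) (n : ℕ)
    (hp : p n = p 0) (hv : v n = v 0) : Even n := by
  by_contra hn
  rw [Nat.not_even_iff_odd] at hn
  have hf : ∀ k, f (k + 1) ≠ f k := by
    intro k e
    obtain ⟨h1, -, -, ⟨t, ht, h2, h3⟩, -⟩ := h k
    have h4 := (h (k + 1)).1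
    have h5 := h3 (t / 2) ⟨by linarith, by linarith⟩ (f k)
    rw [e, h2] at h4
    simp only [dotProduct_add, dotProduct_smul, smul_eq_mul] at h4 h5
    linarith
  have fn : f n = f 0 := by
    by_contra e
    have h1 := (h n).1
    rw [hp] at h1
    exact ((h 0).2.1 _ e).ne h1
  have a1 : ∀ q, P (f 0) q → ∀ k, P (f k) (Q f k * q) := by
    intro q hq k
    induction k with
    | zero => simpa [Q] using hq
    | succ k ih => rw [Q, mul_assoc]; exact step _ _ (hf k) _ ih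
  have a2 : ∀ k, ι (Q f k) * V (v 0) = (-1 : ℝ) ^ k • (V (v k) * ι (Q f k)) := by
    intro k
    induction k with
    | zero => ext <;> simp [Q, ι, V]
    | succ k ih =>
      rw [Q, ι_mul, mul_assoc, ih, mul_smul_comm, ← mul_assoc, refl, ← (h k).2.2.2.2, pow_succ,
        neg_mul, mul_assoc, mul_neg_one, neg_smul, smul_neg]
  have a3 := a2 n
  rw [hn.neg_one_pow, hv] at a3
  have a4 : (Q f n).re = 0 := by
    have e := (h 0).2.2.1
    have e1 := congrArg QuaternionAlgebra.imI a3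
    have e2 := congrArg QuaternionAlgebra.imJ a3
    have e3 := congrArg QuaternionAlgebra.imK a3
    simp [ι, V, dotProduct, Fin.sum_univ_three] at e e1 e2 e3
    have : ((Q f n).re : ℝ) = 0 := by
      linear_combination (v 0 0 * e1 + v 0 1 * e2 + v 0 2 * e3) / 2 - (Q f n).re * e
    exact_mod_cast this
  have a5 := a1 _ (fn ▸ a1 _ (base (f 0)) n) n
  apply a5.1
  obtain ⟨m, rfl⟩ := hn
  have a6 := Q_norm f (2 * m + 1)
  rw [normSq_def', a4, pow_succ (3 : ℤ)] at a6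
  rw [← mul_assoc]
  generalize Q f (2 * m + 1) = q at a4 a6
  generalize (3 : ℤ) ^ (2 * m) = c at a6
  have e : q * q = ⟨3 * -c, 0, 0, 0⟩ := by
    ext <;> simp [a4] <;> linarith
  rw [e]
  simp [D, mul_assoc]

end Pool.Agent.Results.MP_aceab8_an.Even
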